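import Mathlib

/-!
# Abstract projective sets and countably generated sigma-algebras

Ulam asked: given a sequence `A` of subsets of a set `E` of power continuum, is there a sequence `B`
such that every set projective over `A` is in the Borel field over `B`? We show that this is
equivalent to the base property of Banach (every family of at most continuum many subsets of `E` lies
in one countably generated sigma-algebra): split `E` into a copy of `E` and a copy of the set of pairs
`(α, β)` with `α ∈ F β`, and let `A` code the points; then each `F β` is a projection of a set in the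
sigma-algebra generated by rectangles, the parameter `β` entering through a real number. The base
property holds under the continuum hypothesis and fails when `2 ^ l` has cofinality at most the
continuum for some `l` below the continuum.
-/

set_option autoImplicit false

open Cardinal MeasurableSpace Set
open scoped MeasureTheory

namespace Pool.Agent.Results.MP_17aaef_lc.UlamBanach

universe u

/-- The sigma-algebra `R_n` on `E^n` generated by the boxes `A_{m_1} × ... × A_{m_n}`. -/
@[reducible] def R {E : Type u} (A : ℕ → Set E) (n : ℕ) : MeasurableSpace (Fin n → E) :=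
  generateFrom {S | ∃ m : Fin n → ℕ, S = {x | ∀ i, x i ∈ A (m i)}}

/-- The projection `π_n : E^{n+1} → E^n` which deletes the last coordinate. -/
def dropLast {E : Type u} (n : ℕ) (x : Fin (n + 1) → E) : Fin n → E := fun i => x i.castSucc

/-- `Proj A k n` is the family `P_{k+1}(E^n)`. -/
def Proj {E : Type u} (A : ℕ → Set E) : ℕ → (n : ℕ) → Set (Set (Fin n → E))
  | 0, n => {T | ∃ S, MeasurableSet[R A (n + 1)] S ∧ T = dropLast n '' S}
  | k + 1, n => {T | ∃ S ∈ Proj A k (n + 1), T = dropLast n '' Sᶜ}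

/-- The subset `T` of `E` is projective over the sequence `A`. -/
def IsProjective {E : Type u} (A : ℕ → Set E) (T : Set E) : Prop :=
  ∃ k, {x : Fin 1 → E | x 0 ∈ T} ∈ Proj A k 1

/-- `T` belongs to the sigma-algebra on `E` generated by the sequence `B`. -/
def InSigma {E : Type u} (B : ℕ → Set E) (T : Set E) : Prop :=
  MeasurableSet[generateFrom (range B)] T

/-- The statement of Q1 for the set `E`. -/
def Q1 (E : Type u) : Prop :=
  ∀ A : ℕ → Set E, ∃ B : ℕ → Set E, ∀ T : Set E, IsProjective A T → InSigma B T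

/-- Every family of at most continuum many subsets of `E` lies in a countably generated
sigma-algebra. -/
def DenumerableBase (E : Type u) : Prop :=
  ∀ F : Set (Set E), #F ≤ 𝔠 → ∃ B : ℕ → Set E, ∀ T ∈ F, InSigma B T

/-- Every subset of `E × E` belongs to the sigma-algebra generated by all rectangles `U × V`. -/
def AllRectangles (E : Type u) : Prop :=
  ∀ S : Set (E × E), MeasurableSet[generateFrom {Q | ∃ U V : Set E, Q = U ×ˢ V}] S

/-! ### Preliminaries -/

theorem inSigma_preimage {X E : Type u} (f : X → E) (B : ℕ → Set E) (T : Set E)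
    (h : InSigma B T) : InSigma (fun n => f ⁻¹' B n) (f ⁻¹' T) := by
  have hf : @Measurable X E (generateFrom (range fun n => f ⁻¹' B n)) (generateFrom (range B)) f := by
    apply @measurable_generateFrom X E (generateFrom (range fun n => f ⁻¹' B n)) (range B) f
    rintro _ ⟨n, rfl⟩
    exact measurableSet_generateFrom ⟨n, rfl⟩
  exact hf h

theorem mk_R_le {E : Type u} (A : ℕ → Set E) (n : ℕ) :
    #{S : Set (Fin n → E) | MeasurableSet[R A n] S} ≤ 𝔠 := by
  apply cardinal_measurableSet_le_continuum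
  have : {S : Set (Fin n → E) | ∃ m : Fin n → ℕ, S = {x | ∀ i, x i ∈ A (m i)}} =
      range (fun m : Fin n → ℕ => {x : Fin n → E | ∀ i, x i ∈ A (m i)}) := by
    ext S
    constructor
    · rintro ⟨m, rfl⟩
      exact ⟨m, rfl⟩
    · rintro ⟨m, rfl⟩
      exact ⟨m, rfl⟩
  rw [this]
  have hc : (range (fun m : Fin n → ℕ => {x : Fin n → E | ∀ i, x i ∈ A (m i)})).Countable :=
    countable_range _
  exact (le_aleph0_iff_set_countable.mpr hc).trans aleph0_le_continuum

theorem mk_Proj_le {E : Type u} (A : ℕ → Set E) (k : ℕ) : ∀ n : ℕ, #(Proj A k n) ≤ 𝔠 := by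
  induction k with
  | zero =>
    intro n
    have : Proj A 0 n = (fun S => dropLast n '' S) '' {S | MeasurableSet[R A (n + 1)] S} := by
      ext T
      constructor
      · rintro ⟨S, hS, rfl⟩
        exact ⟨S, hS, rfl⟩
      · rintro ⟨S, hS, rfl⟩
        exact ⟨S, hS, rfl⟩
    rw [this]
    exact mk_image_le.trans (mk_R_le A (n + 1))
  | succ k ih =>
    intro n
    have : Proj A (k + 1) n = (fun S => dropLast n '' Sᶜ) '' Proj A k (n + 1) := by
      ext T
      constructor
      · rintro ⟨S, hS, rfl⟩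
        exact ⟨S, hS, rfl⟩
      · rintro ⟨S, hS, rfl⟩
        exact ⟨S, hS, rfl⟩
    rw [this]
    exact mk_image_le.trans (ih (n + 1))

theorem mk_projective_le {E : Type u} (A : ℕ → Set E) : #{T : Set E | IsProjective A T} ≤ 𝔠 := by
  have h1 : #{T : Set E | IsProjective A T} ≤ #(⋃ k : ULift.{u} ℕ, Proj A k.down 1) := by
    refine mk_le_of_injective (f := fun T : {T : Set E | IsProjective A T} =>
      (⟨{x : Fin 1 → E | x 0 ∈ T.1}, ?_⟩ : (⋃ k : ULift.{u} ℕ, Proj A k.down 1 : Set _))) ?_
    · obtain ⟨k, hk⟩ := T.2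
      exact mem_iUnion.mpr ⟨⟨k⟩, hk⟩
    · intro T T' h
      apply Subtype.ext
      ext a
      have h2 : {x : Fin 1 → E | x 0 ∈ T.1} = {x : Fin 1 → E | x 0 ∈ T'.1} := congrArg Subtype.val h
      have h3 := Set.ext_iff.mp h2 (fun _ => a)
      exact h3
  refine h1.trans ((mk_iUnion_le_sum_mk).trans ?_)
  refine (sum_le_sum _ (fun _ => 𝔠) (fun k : ULift.{u} ℕ => mk_Proj_le A k.down 1)).trans ?_
  rw [sum_const]
  simp

theorem q1_of_base {E : Type u} (h : DenumerableBase E) : Q1 E := by
  intro A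
  obtain ⟨B, hB⟩ := h {T | IsProjective A T} (mk_projective_le A)
  exact ⟨B, fun T hT => hB T hT⟩


theorem exists_code {E : Type u} (hE : #E ≤ 𝔠) : ∃ r : E → Set ℕ, Function.Injective r := by
  have h1 : #(Set (ULift.{u} ℕ)) = 𝔠 := by
    rw [mk_set]
    simp
  have h2 : #E ≤ #(Set (ULift.{u} ℕ)) := hE.trans h1.ge
  obtain ⟨f⟩ := h2
  refine ⟨fun x => ULift.down '' (f x), ?_⟩
  intro x y hxy
  apply f.injective
  exact (Set.image_injective.mpr ULift.down_injective) hxy

theorem measurableSet_setOf_iff {X : Type u} (m : MeasurableSpace X) (a b : Set X)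
    (ha : MeasurableSet[m] a) (hb : MeasurableSet[m] b) :
    MeasurableSet[m] {z | z ∈ a ↔ z ∈ b} := by
  have : {z | z ∈ a ↔ z ∈ b} = (a ∩ b) ∪ (aᶜ ∩ bᶜ) := by
    ext z
    simp only [mem_ofPred_eq, mem_union, mem_inter_iff, mem_compl_iff]
    tauto
  rw [this]
  exact (ha.inter hb).union (ha.compl.inter hb.compl)

theorem measurableSet_setOf_iff_const {X : Type u} (m : MeasurableSpace X) (a : Set X) (p : Prop)
    (ha : MeasurableSet[m] a) : MeasurableSet[m] {z | z ∈ a ↔ p} := by
  by_cases hp : p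
  · have : {z | z ∈ a ↔ p} = a := by
      ext z
      simp [hp]
    rw [this]
    exact ha
  · have : {z | z ∈ a ↔ p} = aᶜ := by
      ext z
      simp [hp]
    rw [this]
    exact ha.compl

theorem measurableSet_coord {E : Type u} (A : ℕ → Set E) (n : ℕ) (h0 : ∃ m, A m = Set.univ)
    (W : Set E) (hW : ∃ m, A m = W) (j : Fin n) : MeasurableSet[R A n] {z | z j ∈ W} := by
  obtain ⟨m0, hm0⟩ := h0
  obtain ⟨m1, hm1⟩ := hW
  apply measurableSet_generateFrom
  refine ⟨fun i => if i = j then m1 else m0, ?_⟩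
  ext z
  simp only [mem_ofPred_eq]
  constructor
  · intro h i
    by_cases hi : i = j
    · subst hi
      simp [hm1, h]
    · simp [hi, hm0]
  · intro h
    have := h j
    simpa [hm1] using this

theorem exists_index {E : Type u} (hE : #E = 𝔠) (F : Set (Set E)) (hF : #F ≤ 𝔠) :
    ∃ g : E → Set E, ∀ T ∈ F, ∃ β, g β = T := by
  rcases F.eq_empty_or_nonempty with rfl | hne
  · exact ⟨fun _ => ∅, fun T hT => absurd hT (by simp)⟩
  have h1 : #F ≤ #E := hF.trans hE.ge
  obtain ⟨i⟩ := h1
  have : Nonempty F := hne.to_subtype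
  refine ⟨fun β => (Function.invFun i β).1, fun T hT => ⟨i ⟨T, hT⟩, ?_⟩⟩
  simp only
  rw [Function.leftInverse_invFun i.injective ⟨T, hT⟩]

theorem base_of_q1 {E : Type u} (hE : #E = 𝔠) (h : Q1 E) : DenumerableBase E := by
  intro F hF
  -- index the family by `E`
  obtain ⟨g, hg⟩ := exists_index hE F hF
  obtain ⟨r, hr⟩ := exists_code hE.le
  -- the auxiliary set
  have hX : #(E ⊕ {p : E × E // p.1 ∈ g p.2}) = 𝔠 := by
    apply le_antisymm
    · have h2 : #{p : E × E // p.1 ∈ g p.2} ≤ #(E × E) := mk_subtype_le _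
      rw [mk_sum]
      simp only [lift_id]
      calc #E + #{p : E × E // p.1 ∈ g p.2} ≤ #E + #(E × E) := by gcongr
        _ = 𝔠 := by
          rw [mk_prod]
          simp [hE]
    · rw [mk_sum]
      simp only [lift_id, hE]
      exact self_le_add_right _ _
  obtain ⟨e⟩ := Cardinal.eq.mp (hE.trans hX.symm)
  let D : Set E := {x | ∃ α, e x = Sum.inl α}
  let U : ℕ → Set E := fun n => {x | n ∈ r (Sum.elim id (fun p => p.1.1) (e x))}
  let V : ℕ → Set E := fun n => {x | ∃ p, e x = Sum.inr p ∧ n ∈ r p.1.2}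
  let K : Set (Set E) := {Set.univ, D} ∪ (range U ∪ range V)
  have hK : K.Countable := by
    refine Countable.union ?_ (Countable.union (countable_range _) (countable_range _))
    exact (Set.toFinite _).countable
  obtain ⟨A, hA⟩ := hK.exists_eq_range ⟨Set.univ, Or.inl (Or.inl rfl)⟩
  have hA0 : ∃ m, A m = Set.univ := by
    have : (Set.univ : Set E) ∈ range A := by
      rw [← hA]
      exact Or.inl (Or.inl rfl)
    exact this
  have hAD : ∃ m, A m = D := by
    have : D ∈ range A := by
      rw [← hA]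
      exact Or.inl (Or.inr rfl)
    exact this
  have hAU : ∀ n, ∃ m, A m = U n := by
    intro n
    have : U n ∈ range A := by
      rw [← hA]
      exact Or.inr (Or.inl ⟨n, rfl⟩)
    exact this
  have hAV : ∀ n, ∃ m, A m = V n := by
    intro n
    have : V n ∈ range A := by
      rw [← hA]
      exact Or.inr (Or.inr ⟨n, rfl⟩)
    exact this
  let T : E → Set E := fun β => {x | ∃ α, e x = Sum.inl α ∧ α ∈ g β}
  have hproj : ∀ β, IsProjective A (T β) := by
    intro β
    refine ⟨0, ?_⟩
    let S : Set (Fin 2 → E) := {z | z 0 ∈ D} ∩ ({z | z 1 ∈ D}ᶜ ∩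
      ((⋂ n, {z | z ∈ {y : Fin 2 → E | y 0 ∈ U n} ↔ z ∈ {y : Fin 2 → E | y 1 ∈ U n}}) ∩
        (⋂ n, {z | z ∈ {y : Fin 2 → E | y 1 ∈ V n} ↔ n ∈ r β})))
    refine ⟨S, ?_, ?_⟩
    · refine MeasurableSet.inter (measurableSet_coord A 2 hA0 D hAD 0) (MeasurableSet.inter
        (measurableSet_coord A 2 hA0 D hAD 1).compl (MeasurableSet.inter ?_ ?_))
      · exact MeasurableSet.iInter fun n => measurableSet_setOf_iff _ _ _
          (measurableSet_coord A 2 hA0 _ (hAU n) 0) (measurableSet_coord A 2 hA0 _ (hAU n) 1)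
      · exact MeasurableSet.iInter fun n => measurableSet_setOf_iff_const _ _ _
          (measurableSet_coord A 2 hA0 _ (hAV n) 1)
    · ext x
      constructor
      · rintro ⟨α, hα, hαβ⟩
        refine ⟨![x 0, e.symm (Sum.inr ⟨(α, β), hαβ⟩)], ⟨⟨α, ?_⟩, ?_, ?_, ?_⟩, ?_⟩
        · simpa using hα
        · rintro ⟨α', hα'⟩
          simp at hα'
        · simp only [mem_iInter, mem_ofPred_eq, U]
          intro n
          simp [hα]
        · simp only [mem_iInter, mem_ofPred_eq, V]
          intro n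
          simp
        · funext i
          fin_cases i
          rfl
      · rintro ⟨z, ⟨⟨α, hα⟩, h1, h2, h3⟩, rfl⟩
        have h1' : ¬ ∃ α, e (z 1) = Sum.inl α := h1
        rcases hz : e (z 1) with α' | p
        · exact absurd ⟨α', hz⟩ h1'
        · simp only [mem_iInter, mem_ofPred_eq, U, V, hα, hz] at h2 h3
          have e1 : α = p.1.1 := by
            apply hr
            ext n
            exact h2 n
          have e2 : p.1.2 = β := by
            apply hr
            ext n
            rw [← h3 n]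
            simp
          refine ⟨α, hα, ?_⟩
          rw [e1, ← e2]
          exact p.2
  obtain ⟨B, hB⟩ := h A
  refine ⟨fun n => (fun α => e.symm (Sum.inl α)) ⁻¹' B n, ?_⟩
  intro T' hT'
  obtain ⟨β, rfl⟩ := hg T' hT'
  have h4 := inSigma_preimage (fun α : E => e.symm (Sum.inl α)) B (T β) (hB _ (hproj β))
  have h5 : (fun α : E => e.symm (Sum.inl α)) ⁻¹' (T β) = g β := by
    ext α
    simp [T]
  rw [h5] at h4
  exact h4

/-! ### Rectangles and the continuum hypothesis -/

theorem inSigma_mono {E : Type u} {B B' : ℕ → Set E} (h : ∀ n, ∃ m, B' m = B n) {T : Set E}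
    (hT : InSigma B T) : InSigma B' T := by
  have h1 : generateFrom (range B) ≤ generateFrom (range B') := by
    apply generateFrom_mono
    rintro _ ⟨n, rfl⟩
    exact h n
  exact h1 _ hT

theorem sections {E : Type u} (S : Set (E × E))
    (hS : MeasurableSet[generateFrom {Q | ∃ U V : Set E, Q = U ×ˢ V}] S) :
    ∃ B : ℕ → Set E, ∀ β, InSigma B {α | (α, β) ∈ S} := by
  induction S, hS using generateFrom_induction with
  | hC Q hQ _ =>
    obtain ⟨U, V, rfl⟩ := hQ
    refine ⟨fun _ => U, fun β => ?_⟩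
    by_cases hβ : β ∈ V
    · have : {α | (α, β) ∈ U ×ˢ V} = U := by
        ext α
        simp [hβ]
      rw [this]
      exact measurableSet_generateFrom ⟨0, rfl⟩
    · have : {α | (α, β) ∈ U ×ˢ V} = ∅ := by
        ext α
        simp [hβ]
      rw [this]
      exact @MeasurableSet.empty _ (generateFrom _)
  | empty =>
    exact ⟨fun _ => ∅, fun β => @MeasurableSet.empty _ (generateFrom _)⟩
  | compl Q _ ih =>
    obtain ⟨B, hB⟩ := ih
    exact ⟨B, fun β => MeasurableSet.compl (hB β)⟩
  | iUnion Q _ ih =>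
    choose B hB using ih
    refine ⟨fun k => B (Nat.unpair k).1 (Nat.unpair k).2, fun β => ?_⟩
    have : {α | (α, β) ∈ ⋃ i, Q i} = ⋃ i, {α | (α, β) ∈ Q i} := by
      ext α
      simp
    rw [this]
    refine MeasurableSet.iUnion fun i => ?_
    exact inSigma_mono (fun n => ⟨Nat.pair i n, by simp⟩) (hB i β)

theorem base_of_rectangles {E : Type u} (hE : #E = 𝔠) (h : AllRectangles E) :
    DenumerableBase E := by
  intro F hF
  obtain ⟨g, hg⟩ := exists_index hE F hF
  obtain ⟨B, hB⟩ := sections {p : E × E | p.1 ∈ g p.2} (h _)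
  refine ⟨B, fun T hT => ?_⟩
  obtain ⟨β, rfl⟩ := hg T hT
  exact hB β

theorem rect_left {E : Type u} (U : Set E) :
    MeasurableSet[generateFrom {Q | ∃ U V : Set E, Q = U ×ˢ V}] {p : E × E | p.1 ∈ U} := by
  apply measurableSet_generateFrom
  refine ⟨U, Set.univ, ?_⟩
  ext p
  simp

theorem rect_right {E : Type u} (V : Set E) :
    MeasurableSet[generateFrom {Q | ∃ U V : Set E, Q = U ×ˢ V}] {p : E × E | p.2 ∈ V} := by
  apply measurableSet_generateFrom
  refine ⟨Set.univ, V, ?_⟩
  ext p
  simp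

theorem graph_left {E : Type u} (hE : #E = 𝔠) (f : E → E) :
    MeasurableSet[generateFrom {Q | ∃ U V : Set E, Q = U ×ˢ V}] {p : E × E | p.1 = f p.2} := by
  obtain ⟨r, hr⟩ := exists_code hE.le
  have : {p : E × E | p.1 = f p.2} = ⋂ k : ℕ, {p : E × E | p ∈ {q : E × E | q.1 ∈ {x | k ∈ r x}} ↔
      p ∈ {q : E × E | q.2 ∈ {x | k ∈ r (f x)}}} := by
    ext p
    simp only [mem_ofPred_eq, mem_iInter]
    constructor
    · intro h k
      rw [h]
    · intro h
      apply hr
      ext k
      exact h k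
  rw [this]
  exact MeasurableSet.iInter fun k => measurableSet_setOf_iff _ _ _ (rect_left _) (rect_right _)

theorem graph_right {E : Type u} (hE : #E = 𝔠) (f : E → E) :
    MeasurableSet[generateFrom {Q | ∃ U V : Set E, Q = U ×ˢ V}] {p : E × E | p.2 = f p.1} := by
  obtain ⟨r, hr⟩ := exists_code hE.le
  have : {p : E × E | p.2 = f p.1} = ⋂ k : ℕ, {p : E × E | p ∈ {q : E × E | q.2 ∈ {x | k ∈ r x}} ↔
      p ∈ {q : E × E | q.1 ∈ {x | k ∈ r (f x)}}} := by
    ext p
    simp only [mem_ofPred_eq, mem_iInter]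
    constructor
    · intro h k
      rw [h]
    · intro h
      apply hr
      ext k
      exact h k
  rw [this]
  exact MeasurableSet.iInter fun k => measurableSet_setOf_iff _ _ _ (rect_right _) (rect_left _)

theorem rectangles_of_ch {E : Type u} (hE : #E = 𝔠) (hch : (𝔠 : Cardinal.{u}) = ℵ₁) :
    AllRectangles E := by
  intro S
  have hW : #((𝔠 : Cardinal.{u}).ord.ToType) = 𝔠 := by simp
  obtain ⟨e⟩ := Cardinal.eq.mp (hE.trans hW.symm)
  have hcount : ∀ x : E, {y | e y ≤ e x}.Countable := by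
    intro x
    have h1 : #(Iio (e x)) < 𝔠 := by
      have := mk_Iio_lt (e x) (by simp)
      simpa using this
    have h2 : (Iio (e x)).Countable := by
      rw [← le_aleph0_iff_set_countable]
      exact (Cardinal.lt_aleph_one_iff).mp (h1.trans_eq hch)
    have h3 : {y | e y ≤ e x} = e ⁻¹' (insert (e x) (Iio (e x))) := by
      ext y
      simp [le_iff_eq_or_lt]
    rw [h3]
    exact (h2.insert _).preimage e.injective
  have henum : ∀ x : E, ∃ f : ℕ → E, {y | e y ≤ e x} = range f := fun x =>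
    (hcount x).exists_eq_range ⟨x, le_refl (e x)⟩
  choose en hen using henum
  have hS : S = (⋃ n, ({p : E × E | p.1 = en p.2 n} ∩ {p : E × E | p.2 ∈ {β | (en β n, β) ∈ S}})) ∪
      (⋃ n, ({p : E × E | p.2 = en p.1 n} ∩ {p : E × E | p.1 ∈ {α | (α, en α n) ∈ S}})) := by
    ext ⟨α, β⟩
    simp only [mem_union, mem_iUnion, mem_inter_iff, mem_ofPred_eq]
    constructor
    · intro h
      rcases le_total (e α) (e β) with hle | hle
      · left
        have : α ∈ range (en β) := by
          rw [← hen β]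
          exact hle
        obtain ⟨n, hn⟩ := this
        exact ⟨n, hn.symm, by rw [hn]; exact h⟩
      · right
        have : β ∈ range (en α) := by
          rw [← hen α]
          exact hle
        obtain ⟨n, hn⟩ := this
        exact ⟨n, hn.symm, by rw [hn]; exact h⟩
    · rintro (⟨n, hn, h⟩ | ⟨n, hn, h⟩)
      · rw [hn]; exact h
      · rw [hn]; exact h
  rw [hS]
  refine MeasurableSet.union (MeasurableSet.iUnion fun n => ?_) (MeasurableSet.iUnion fun n => ?_)
  · exact (graph_left hE (fun β => en β n)).inter (rect_right _)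
  · exact (graph_right hE (fun α => en α n)).inter (rect_left _)

/-! ### Cardinal arithmetic without the continuum hypothesis -/

theorem not_base_of_cof {E : Type u} (hE : #E = 𝔠) (l : Cardinal.{u}) (hl : l < 𝔠)
    (hl2 : 𝔠 < (2 : Cardinal.{u}) ^ l) (hcof : ((2 : Cardinal.{u}) ^ l).ord.cof ≤ 𝔠) :
    ¬ DenumerableBase E := by
  intro hDB
  have hinf : ℵ₀ ≤ l := by
    by_contra hlt
    push Not at hlt
    have h1 : (2 : Cardinal.{u}) ^ l < ℵ₀ := power_lt_aleph0 (by exact_mod_cast natCast_lt_aleph0 (n := 2)) hlt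
    exact absurd (h1.trans_le aleph0_le_continuum) (not_lt.mpr hl2.le)
  obtain ⟨L, hL⟩ := le_mk_iff_exists_set.mp (hl.le.trans hE.ge)
  have hΦ : #(ULift.{u} ℕ → Set L) = (2 : Cardinal.{u}) ^ l := by
    rw [← Cardinal.power_def, mk_set, hL, ← power_mul]
    simp [mul_eq_left hinf hinf aleph0_ne_zero]
  have hW : #(((2 : Cardinal.{u}) ^ l).ord.ToType) = (2 : Cardinal.{u}) ^ l := by simp
  obtain ⟨e⟩ := Cardinal.eq.mp (hΦ.trans hW.symm)
  obtain ⟨C, hC, hCc⟩ := Order.exists_cof_eq (((2 : Cardinal.{u}) ^ l).ord.ToType)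
  rw [Ordinal.cof_toType] at hCc
  have hCle : #C ≤ 𝔠 := hCc.le.trans hcof
  -- the sets captured by the families of index at most `w`
  have hpick : ∀ w : ((2 : Cardinal.{u}) ^ l).ord.ToType, ∃ G : Set L,
      ∀ φ : ULift.{u} ℕ → Set L, e φ ≤ w → ¬ InSigma (fun n => φ ⟨n⟩) G := by
    intro w
    by_contra hcon
    push Not at hcon
    have h1 : (Set.univ : Set (Set L)) ⊆ ⋃ φ : {φ : ULift.{u} ℕ → Set L // e φ ≤ w},
        {G | InSigma (fun n => φ.1 ⟨n⟩) G} := by
      intro G _
      obtain ⟨φ, hφ, hG⟩ := hcon G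
      exact mem_iUnion.mpr ⟨⟨φ, hφ⟩, hG⟩
    have h2 : (2 : Cardinal.{u}) ^ l ≤ #{φ : ULift.{u} ℕ → Set L // e φ ≤ w} * 𝔠 := by
      calc (2 : Cardinal.{u}) ^ l = #(Set.univ : Set (Set L)) := by
            rw [mk_univ, mk_set, hL]
        _ ≤ _ := mk_le_mk_of_subset h1
        _ ≤ _ := mk_iUnion_le_sum_mk
        _ ≤ Cardinal.sum (fun _ : {φ : ULift.{u} ℕ → Set L // e φ ≤ w} => 𝔠) := by
            apply sum_le_sum
            intro φ
            apply cardinal_measurableSet_le_continuum
            exact (le_aleph0_iff_set_countable.mpr (countable_range _)).trans aleph0_le_continuum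
        _ = _ := by
            rw [sum_const]
            simp
    have h3 : #{φ : ULift.{u} ℕ → Set L // e φ ≤ w} < (2 : Cardinal.{u}) ^ l := by
      have h4 : #{φ : ULift.{u} ℕ → Set L // e φ ≤ w} ≤ #(Iic w) := by
        refine mk_le_of_injective (f := fun φ => (⟨e φ.1, φ.2⟩ : Iic w)) ?_
        intro φ φ' h
        apply Subtype.ext
        apply e.injective
        exact congrArg Subtype.val h
      have h5 : #(Iio w) < (2 : Cardinal.{u}) ^ l := by
        have := mk_Iio_lt w (by simp)
        simpa using this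
      have h6 : #(Iic w) ≤ #(Iio w) + 1 := by
        have : Iic w = insert w (Iio w) := by
          ext x
          simp [le_iff_eq_or_lt]
        rw [this]
        exact mk_insert_le
      have h7 : ℵ₀ ≤ (2 : Cardinal.{u}) ^ l := aleph0_le_continuum.trans hl2.le
      exact (h4.trans h6).trans_lt (add_lt_of_lt h7 h5 (one_lt_aleph0.trans_le h7))
    have h8 : #{φ : ULift.{u} ℕ → Set L // e φ ≤ w} * 𝔠 < (2 : Cardinal.{u}) ^ l :=
      mul_lt_of_lt (aleph0_le_continuum.trans hl2.le) h3 hl2
    exact absurd h2 (not_le.mpr h8)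
  choose G hG using hpick
  obtain ⟨B, hB⟩ := hDB ((fun w => (Subtype.val : L → E) '' (G w)) '' C) (mk_image_le.trans hCle)
  let φ : ULift.{u} ℕ → Set L := fun n => (Subtype.val : L → E) ⁻¹' (B n.down)
  obtain ⟨w, hw, hle⟩ := hC (e φ)
  have h9 := inSigma_preimage (X := L) (Subtype.val : L → E) B _ (hB _ ⟨w, hw, rfl⟩)
  rw [preimage_image_eq _ Subtype.val_injective] at h9
  exact hG w φ hle h9

theorem result (E : Type u) (hE : #E = 𝔠) :
    (Q1 E ↔ DenumerableBase E) ∧
    (AllRectangles E → Q1 E) ∧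
    ((𝔠 : Cardinal.{u}) = ℵ₁ → Q1 E) ∧
    ((∃ l : Cardinal.{u}, l < 𝔠 ∧ 𝔠 < (2 : Cardinal.{u}) ^ l ∧
      ((2 : Cardinal.{u}) ^ l).ord.cof ≤ 𝔠) → ¬ Q1 E) ∧
    ((𝔠 : Cardinal.{u}) = ℵ_ 2 ∧ (2 : Cardinal.{u}) ^ (ℵ₁ : Cardinal.{u}) = ℵ_ (Ordinal.omega 2) →
      ¬ Q1 E) := by
  have h4 : (∃ l : Cardinal.{u}, l < 𝔠 ∧ 𝔠 < (2 : Cardinal.{u}) ^ l ∧
      ((2 : Cardinal.{u}) ^ l).ord.cof ≤ 𝔠) → ¬ Q1 E := by
    rintro ⟨l, h1, h2, h3⟩ hQ
    exact not_base_of_cof hE l h1 h2 h3 (base_of_q1 hE hQ)
  refine ⟨⟨base_of_q1 hE, q1_of_base⟩, fun h => q1_of_base (base_of_rectangles hE h),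
    fun h => q1_of_base (base_of_rectangles hE (rectangles_of_ch hE h)), h4, ?_⟩
  rintro ⟨h1, h2⟩
  apply h4
  refine ⟨ℵ₁, ?_, ?_, ?_⟩
  · rw [h1]
    exact aleph_lt_aleph.mpr (by norm_num)
  · rw [h2, h1]
    refine aleph_lt_aleph.mpr ?_
    exact lt_of_lt_of_le (by exact_mod_cast Ordinal.natCast_lt_omega0 2) (Ordinal.omega0_le_omega 2)
  · rw [h2, h1, ord_aleph, Ordinal.cof_omega (isSuccLimit_omega 2)]
    have : (Ordinal.omega 2).cof = ℵ_ 2 := by
      have := Cardinal.cof_omega_add_one 1
      rw [one_add_one_eq_two] at this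
      exact this
    rw [this]

end Pool.Agent.Results.MP_17aaef_lc.UlamBanach
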