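import Mathlib
import Pool.Agent.H504.UCFinal
import Pool.Agent.Results.MP_17aaef_lc.UlamBanach

/-!
# Ulam's question on abstract projective sets is independent of ZFC

Positive side: the continuum hypothesis implies the statement of Q1, and the continuum hypothesis
holds in the extension by some forcing notion (which preserves `ω₁`). Negative side: the
combinatorial statement `Phi` implies the negation of Q1 in ZFC, and `Phi` holds in the extension
by the forcing notion adding `(2 ^ ℵ₀)⁺` Cohen reals. For the negative side, let the generic reals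
be indexed by a set `K` of order type `(2 ^ ℵ₀)⁺`, and let `B` be a name for a sequence of subsets
of `K`. By the Delta-system lemma there is an initial segment `I a` of `K` such that for all
countable sets of parameters some permutation fixing them exchanges the names of the values
of `B` at some `β < a` and at some `β' ≥ a`. The sets with names invariant under the
permutations which fix a countable set form a sigma-algebra which contains all `B n`, and
`I a` does not belong to it.
-/

set_option autoImplicit false

open Cardinal MeasurableSpace Set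
open scoped MeasureTheory

namespace Pool.Agent.Results.MP_17aaef_lc.Independence

open Pool.Agent.Results.MP_17aaef_lc.UlamBanach (Q1 DenumerableBase InSigma base_of_q1)
open Pool.Agent.H504.UC (Phi ForcedPhi)
open Pool.Agent.Helper292.ForceCH (Om OmegaOnePreserved CHHolds)

universe u

/-- The continuum hypothesis: some family of subsets of `ℕ` indexed by `ω₁` contains every
subset of `ℕ`. -/
def CH : Prop := ∃ f : Om → Set ℕ, ∀ x : Set ℕ, ∃ a : Om, ∀ n, n ∈ x ↔ n ∈ f a

theorem continuum_of_CH (h : CH) : (𝔠 : Cardinal.{u}) = ℵ₁ := by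
  obtain ⟨f, hf⟩ := h
  have hsurj : Function.Surjective f := by
    intro x
    obtain ⟨a, ha⟩ := hf x
    exact ⟨a, (Set.ext ha).symm⟩
  have h1 : (𝔠 : Cardinal.{0}) ≤ ℵ₁ := by
    have h2 := mk_le_of_surjective hsurj
    rwa [mk_set, mk_nat, two_power_aleph0, mk_ord_toType] at h2
  have h3 : (𝔠 : Cardinal.{0}) = ℵ₁ := le_antisymm h1 aleph_one_le_continuum
  have h4 := congrArg Cardinal.lift.{u, 0} h3
  rwa [lift_continuum, lift_aleph, Ordinal.lift_one] at h4

theorem inSigma_preimage' {X : Type} {E : Type u} (f : X → E) (B : ℕ → Set E) (T : Set E)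
    (h : InSigma B T) : MeasurableSet[generateFrom (range fun n => f ⁻¹' B n)] (f ⁻¹' T) := by
  have hf : @Measurable X E (generateFrom (range fun n => f ⁻¹' B n)) (generateFrom (range B)) f := by
    apply @measurable_generateFrom X E (generateFrom (range fun n => f ⁻¹' B n)) (range B) f
    rintro _ ⟨n, rfl⟩
    exact measurableSet_generateFrom ⟨n, rfl⟩
  exact hf h

theorem not_Q1_of_Phi {E : Type u} (hE : #E = 𝔠) (h : Phi) : ¬ Q1 E := by
  intro hQ
  have hD := base_of_q1 hE hQ
  obtain ⟨K, x, I, hx, hB⟩ := h
  have hxinj : Function.Injective x := fun a b hab => hx a b fun n => by rw [hab]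
  have hK : #K ≤ 𝔠 := by
    have h1 := mk_le_of_injective hxinj
    rwa [mk_set, mk_nat, two_power_aleph0] at h1
  have hKE : Nonempty (K ↪ E) := by
    rw [← Cardinal.lift_mk_le'.{0, u}, hE, lift_continuum]
    have h1 := Cardinal.lift_le.{u, 0}.2 hK
    rwa [lift_continuum] at h1
  obtain ⟨j⟩ := hKE
  have hF : #(range fun a => j '' I a : Set (Set E)) ≤ 𝔠 := by
    have h1 : Cardinal.lift.{0, u} #(range fun a => j '' I a : Set (Set E)) ≤
        Cardinal.lift.{u, 0} #K := mk_range_le_lift
    rw [Cardinal.lift_id'] at h1
    refine h1.trans ?_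
    have h2 := Cardinal.lift_le.{u, 0}.2 hK
    rwa [lift_continuum] at h2
  obtain ⟨B, hB'⟩ := hD _ hF
  obtain ⟨a, S, h1, h2, h3, h4⟩ := hB fun n => j ⁻¹' B n
  apply h4
  have h5 := inSigma_preimage' j B _ (hB' _ ⟨a, rfl⟩)
  rw [preimage_image_eq _ j.injective] at h5
  let m : MeasurableSpace K :=
    { MeasurableSet' := fun T => T ∈ S
      measurableSet_empty := by
        have h6 : (j ⁻¹' B 0)ᶜ ∈ S := h2 _ _ (h1 0) fun b => Iff.rfl
        have h7 : (univ : Set K) ∈ S := by
          refine h3 (fun n => if n = 0 then j ⁻¹' B 0 else (j ⁻¹' B 0)ᶜ) _ (fun n => ?_) fun b => ?_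
          · split_ifs
            · exact h1 0
            · exact h6
          · simp only [mem_univ, true_iff]
            by_cases hb : b ∈ j ⁻¹' B 0
            · exact ⟨0, by simpa using hb⟩
            · exact ⟨1, by simpa using hb⟩
        exact h2 _ _ h7 fun b => by simp
      measurableSet_compl := fun T hT => h2 _ _ hT fun b => Iff.rfl
      measurableSet_iUnion := fun T hT => h3 T _ hT fun b => mem_iUnion }
  have h6 : generateFrom (range fun n => j ⁻¹' B n) ≤ m := by
    refine generateFrom_le ?_
    rintro _ ⟨n, rfl⟩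
    exact h1 n
  exact h6 _ h5

/-- Q1 is independent of ZFC. (1) The continuum hypothesis implies Q1 for every set `E` of
cardinality continuum, and it is forced, together with the preservation of `ω₁`, by some forcing
notion. (2) `Phi` implies the negation of Q1 for every set `E` of cardinality continuum, and it is
forced by some forcing notion. -/
theorem result :
    ((∀ E : Type u, #E = 𝔠 → CH → Q1 E) ∧
      ∃ (P : Type) (_ : Preorder P), Nonempty P ∧
        ∀ p : P, p ∈ OmegaOnePreserved P ∧ p ∈ CHHolds P) ∧
    ((∀ E : Type u, #E = 𝔠 → Phi → ¬ Q1 E) ∧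
      ∃ (K P : Type) (_ : Preorder P), Nonempty P ∧ ∀ p : P, p ∈ ForcedPhi P K) := by
  refine ⟨⟨fun E hE h => (UlamBanach.result E hE).2.2.1 (continuum_of_CH h), ?_⟩,
    fun E hE h => not_Q1_of_Phi hE h, Pool.Agent.H504.UC.main_forced⟩
  obtain ⟨P, hP, h1, h2⟩ := Pool.Agent.Helper292.ForceCH.exists_forcing
  exact ⟨P, hP, h1, fun p => ⟨(h2 p).1, (h2 p).2.2⟩⟩

end Pool.Agent.Results.MP_17aaef_lc.Independence
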